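import Pool.Agent.Q87.Leonard.Basic

/-!
# Zero intersections between eigenspace sums for Leonard systems
-/

namespace Pool.Agent.Results.MP_105763_al.ZeroIntersection

open Pool.Agent.Q87.Leonard

/-- For every Leonard system, every `r ≤ d` and every set `L` of at most `d - r` indices, the sum
of the first `r + 1` eigenspaces of `A*` meets the sum of the eigenspaces of `A` with index in `L`
trivially. -/
theorem result (K : Type*) [Field K] (d : ℕ)
    (A B : Matrix (Fin (d + 1)) (Fin (d + 1)) K)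
    (E F : Fin (d + 1) → Matrix (Fin (d + 1)) (Fin (d + 1)) K)
    (h : IsLeonardSystem A B E F) (r : ℕ) (hr : r ≤ d) (L : Finset (Fin (d + 1)))
    (hL : L.card ≤ d - r) :
    (⨆ i ∈ {i : Fin (d + 1) | (i : ℕ) ≤ r}, LinearMap.range (F i).mulVecLin) ⊓
      (⨆ j ∈ L, LinearMap.range (E j).mulVecLin) = ⊥ := by
  obtain ⟨θ, b, hθ, hbA, hbE⟩ := h.primA.exists_basis
  obtain ⟨θ', c, _, _, hcF⟩ := h.primB.exists_basis
  rw [eq_bot_iff]
  intro x hx
  rw [Submodule.mem_inf] at hx
  obtain ⟨hx1, hx2⟩ := hx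
  rw [Submodule.mem_bot]
  refine eq_zero_of_mem (Matrix.toLin' A) b c θ hθ ?_ ?_ ?_ (r := r) L (by omega) x ?_ ?_
  · intro i; rw [Matrix.toLin'_apply]; exact hbA i
  · intro i j hij
    rw [Matrix.toLin'_apply]
    exact (mul_mul_eq_zero_iff c hcF i j).1 (h.farF i j (Or.inr hij))
  · intro i j hij h0
    rw [Matrix.toLin'_apply] at h0
    exact h.nearF i j (Or.inr hij) ((mul_mul_eq_zero_iff c hcF i j).2 h0)
  · intro k hk
    have hle : (⨆ i ∈ {i : Fin (d + 1) | (i : ℕ) ≤ r}, LinearMap.range (F i).mulVecLin) ≤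
        LinearMap.ker (c.coord k) := by
      refine iSup₂_le ?_
      rintro i hi _ ⟨y, rfl⟩
      rw [LinearMap.mem_ker, Matrix.mulVecLin_apply, hcF]
      have hne : i ≠ k := by
        rintro rfl
        exact absurd hi (not_le.2 hk)
      simp [hne]
    simpa using hle hx1
  · intro k hk
    have hle : (⨆ j ∈ L, LinearMap.range (E j).mulVecLin) ≤ LinearMap.ker (b.coord k) := by
      refine iSup₂_le ?_
      rintro j hj _ ⟨y, rfl⟩
      rw [LinearMap.mem_ker, Matrix.mulVecLin_apply, hbE]
      have hne : j ≠ k := by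
        rintro rfl
        exact hk hj
      simp [hne]
    simpa using hle hx2

end Pool.Agent.Results.MP_105763_al.ZeroIntersection
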